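import Mathlib

/-! `(2bn+1)(2bn+3) C(2bn,bn)` divides `3(a-b)(3a-b) C(2an,an) C(an,bn)`. -/

set_option autoImplicit false

namespace Pool.Agent.N926.Div

open Nat Finset

theorem div_sub {A B q : ℕ} (hq : 0 < q) (hBA : B ≤ A) :
    (A - B) / q + B / q + (if A % q < B % q then 1 else 0) = A / q := by
  have hA := Nat.div_add_mod A q
  have hB := Nat.div_add_mod B q
  have hx := Nat.mod_lt A hq
  have hy := Nat.mod_lt B hq
  set A' := A / q
  set x := A % q
  set B' := B / q
  set y := B % q
  have hAB : B' ≤ A' := Nat.div_le_div_right hBA
  obtain ⟨D, hD⟩ : ∃ D, A' = B' + D := ⟨A' - B', by omega⟩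
  split_ifs with h
  · have hD1 : 1 ≤ D := by
      by_contra hcon
      have hD0 : D = 0 := by omega
      rw [hD0, add_zero] at hD
      rw [← hA, ← hB, hD] at hBA
      omega
    obtain ⟨E, hE⟩ : ∃ E, D = E + 1 := ⟨D - 1, by omega⟩
    have : (A - B) / q = E := by
      apply Nat.div_eq_of_lt_le
      · rw [← hA, ← hB, hD, hE]
        have : q * (B' + (E + 1)) + x - (q * B' + y) = q * E + (q + x - y) := by
          have h2 : q * (B' + (E + 1)) = q * B' + q * E + q := by ring
          omega
        rw [this]
        nlinarith
      · rw [← hA, ← hB, hD, hE]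
        have : q * (B' + (E + 1)) + x - (q * B' + y) = q * E + (q + x - y) := by
          have h2 : q * (B' + (E + 1)) = q * B' + q * E + q := by ring
          omega
        rw [this]
        have h3 : (E + 1) * q = q * E + q := by ring
        omega
    omega
  · have : (A - B) / q = D := by
      have h4 : A - B = q * D + (x - y) := by
        rw [← hA, ← hB, hD]
        have h2 : q * (B' + D) = q * B' + q * D := by ring
        omega
      apply Nat.div_eq_of_lt_le
      · rw [h4]; nlinarith
      · rw [h4]
        have h3 : (D + 1) * q = q * D + q := by ring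
        omega
    omega

theorem two_div {A q : ℕ} (hq : 0 < q) :
    (2 * A) / q = 2 * (A / q) + (if q ≤ 2 * (A % q) then 1 else 0) := by
  have hA := Nat.div_add_mod A q
  have hx := Nat.mod_lt A hq
  set A' := A / q
  set x := A % q
  have h1 : 2 * A = 2 * A' * q + 2 * x := by rw [← hA]; ring
  split_ifs with h
  · apply Nat.div_eq_of_lt_le
    · rw [h1]; nlinarith
    · rw [h1]
      have : (2 * A' + 1 + 1) * q = 2 * A' * q + 2 * q := by ring
      omega
  · apply Nat.div_eq_of_lt_le
    · rw [h1]; nlinarith
    · rw [h1]
      have : (2 * A' + 0 + 1) * q = 2 * A' * q + q := by ring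
      omega

/-- residue of `B` if `q ∣ 2B + c` -/
theorem res {q B c : ℕ} (h : q ∣ 2 * B + c) : q ∣ 2 * (B % q) + c := by
  have hB := Nat.div_add_mod B q
  have h1 : 2 * B + c = q * (2 * (B / q)) + (2 * (B % q) + c) := by
    calc 2 * B + c = 2 * (q * (B / q) + B % q) + c := by rw [hB]
      _ = _ := by ring
  rw [h1] at h
  exact (Nat.dvd_add_right (dvd_mul_right _ _)).1 h

theorem term {p i a b n : ℕ} (hp : p.Prime) (hi : 1 ≤ i) (hab : b < a) :
    (if p ^ i ∣ 2 * (b * n) + 1 then 1 else 0) + (if p ^ i ∣ 2 * (b * n) + 3 then 1 else 0) +
      (2 * (b * n)) / p ^ i + (a * n) / p ^ i + (a * n - b * n) / p ^ i ≤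
    (if p ^ i ∣ 3 * (a - b) then 1 else 0) + (if p ^ i ∣ 3 * a - b then 1 else 0) +
      (2 * (a * n)) / p ^ i + (b * n) / p ^ i := by
  set q := p ^ i with hqdef
  have hq : 0 < q := pow_pos hp.pos i
  have hq2 : 2 ≤ q := by
    calc 2 ≤ p := hp.two_le
      _ = p ^ 1 := (pow_one p).symm
      _ ≤ p ^ i := Nat.pow_le_pow_right hp.pos hi
  have hpq : p ∣ q := dvd_pow_self p (by omega)
  have hle : b * n ≤ a * n := Nat.mul_le_mul_right n hab.le
  have h1 := div_sub hq hle
  have h2 := two_div (A := a * n) hq
  have h3 := two_div (A := b * n) hq
  have hx := Nat.mod_lt (a * n) hq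
  have hy := Nat.mod_lt (b * n) hq
  have hsub : a * n - b * n = (a - b) * n := (Nat.sub_mul a b n).symm
  rw [h2, h3]
  by_cases c1 : q ∣ 2 * (b * n) + 1
  · -- first case
    have c3 : ¬ q ∣ 2 * (b * n) + 3 := by
      intro c3
      have h4 : q ∣ 2 := by
        have := Nat.dvd_sub c3 c1
        rwa [show 2 * (b * n) + 3 - (2 * (b * n) + 1) = 2 by omega] at this
      have h5 : q = 2 := Nat.le_antisymm (Nat.le_of_dvd (by norm_num) h4) hq2
      rw [h5] at c1
      omega
    have h4 := res c1
    obtain ⟨e, he⟩ := h4
    have he1 : e = 1 := by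
      have h5 : e < 2 := by
        by_contra hcon
        have : q * 2 ≤ q * e := Nat.mul_le_mul_left q (by omega)
        omega
      have h6 : e ≠ 0 := by rintro rfl; omega
      omega
    rw [he1, mul_one] at he
    rw [if_pos c1, if_neg c3]
    by_cases hxy : a * n % q < b * n % q
    · rw [if_pos hxy] at h1
      have : ¬ q ≤ 2 * (b * n % q) := by omega
      rw [if_neg this]
      omega
    · rw [if_neg hxy] at h1
      have h7 : ¬ q ≤ 2 * (b * n % q) := by omega
      rw [if_neg h7]
      by_cases h8 : q ≤ 2 * (a * n % q)
      · rw [if_pos h8]; omega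
      · have h9 : b * n % q = a * n % q := by omega
        have h10 : q ∣ a * n - b * n := (Nat.modEq_iff_dvd' hle).1 h9
        rw [hsub] at h10
        have hcop : Nat.Coprime q n := by
          apply Nat.Coprime.pow_left
          rw [hp.coprime_iff_not_dvd]
          intro h11
          have h12 : p ∣ 2 * (b * n) + 1 := hpq.trans c1
          have h13 : p ∣ 2 * (b * n) := (h11.mul_left b).mul_left 2
          have h14 := (Nat.dvd_add_right h13).1 h12
          exact hp.one_lt.not_ge (Nat.le_of_dvd one_pos h14)
        have h11 : q ∣ 3 * (a - b) := (hcop.dvd_of_dvd_mul_right h10).mul_left 3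
        rw [if_pos h11]
        omega
  · rw [if_neg c1]
    by_cases c3 : q ∣ 2 * (b * n) + 3
    · rw [if_pos c3]
      obtain ⟨e, he⟩ := res c3
      have hqodd : ¬ 2 ∣ q := by
        intro h4
        have := h4.trans c3
        omega
      have he1 : e = 1 := by
        have h6 : e ≠ 0 := by rintro rfl; omega
        have h5 : e < 3 := by
          by_contra hcon
          have : q * 3 ≤ q * e := Nat.mul_le_mul_left q (by omega)
          omega
        have h7 : e ≠ 2 := by rintro rfl; omega
        omega
      rw [he1, mul_one] at he
      have h7 : ¬ q ≤ 2 * (b * n % q) := by omega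
      rw [if_neg h7]
      by_cases hxy : a * n % q < b * n % q
      · rw [if_pos hxy] at h1
        omega
      · rw [if_neg hxy] at h1
        by_cases h8 : q ≤ 2 * (a * n % q)
        · rw [if_pos h8]; omega
        · -- two bad residues
          rcases (show b * n % q = a * n % q ∨ b * n % q + 1 = a * n % q by omega) with h9 | h9
          · have h10 : q ∣ a * n - b * n := (Nat.modEq_iff_dvd' hle).1 h9
            rw [hsub] at h10
            have h11 : q ∣ 3 * (a - b) := by
              by_cases hpn : p ∣ n
              · have hp3 : p = 3 := by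
                  have h12 : p ∣ 2 * (b * n) + 3 := hpq.trans c3
                  have h13 : p ∣ 2 * (b * n) := (hpn.mul_left b).mul_left 2
                  have h14 := (Nat.dvd_add_right h13).1 h12
                  exact (Nat.prime_dvd_prime_iff_eq hp Nat.prime_three).1 h14
                subst hp3
                obtain ⟨m, hm⟩ := hpn
                by_cases h3m : 3 ∣ m
                · have hi1 : i = 1 := by
                    by_contra hi1
                    have h15 : 3 ^ 2 ∣ q := Nat.pow_dvd_pow 3 (by omega)
                    have h16 := h15.trans c3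
                    obtain ⟨m', hm'⟩ := h3m
                    rw [hm, hm'] at h16
                    have h17 : 2 * (b * (3 * (3 * m'))) + 3 = 3 ^ 2 * (2 * (b * m')) + 3 := by ring
                    rw [h17] at h16
                    have h18 := (Nat.dvd_add_right (dvd_mul_right _ _)).1 h16
                    have := Nat.le_of_dvd (by norm_num) h18
                    omega
                  rw [hqdef, hi1, pow_one]
                  exact dvd_mul_right _ _
                · have hcop : Nat.Coprime q m := by
                    apply Nat.Coprime.pow_left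
                    rwa [Nat.prime_three.coprime_iff_not_dvd]
                  rw [hm, show (a - b) * (3 * m) = 3 * (a - b) * m by ring] at h10
                  exact hcop.dvd_of_dvd_mul_right h10
              · have hcop : Nat.Coprime q n := by
                  apply Nat.Coprime.pow_left
                  rwa [hp.coprime_iff_not_dvd]
                exact (hcop.dvd_of_dvd_mul_right h10).mul_left 3
            rw [if_pos h11]
            omega
          · -- q divides 2 a n + 1
            have h10 : q ∣ 2 * (a * n) + 1 := by
              have hA := Nat.div_add_mod (a * n) q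
              have h11 : 2 * (a * n) + 1 = q * (2 * (a * n / q)) + (2 * (a * n % q) + 1) := by
                calc 2 * (a * n) + 1 = 2 * (q * (a * n / q) + a * n % q) + 1 := by rw [hA]
                  _ = _ := by ring
              rw [h11]
              apply dvd_add (dvd_mul_right _ _)
              rw [show 2 * (a * n % q) + 1 = q by omega]
            have hcopn : Nat.Coprime q n := by
              apply Nat.Coprime.pow_left
              rw [hp.coprime_iff_not_dvd]
              intro h11
              have h12 : p ∣ 2 * (a * n) + 1 := hpq.trans h10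
              have h13 : p ∣ 2 * (a * n) := (h11.mul_left a).mul_left 2
              have h14 := (Nat.dvd_add_right h13).1 h12
              exact hp.one_lt.not_ge (Nat.le_of_dvd one_pos h14)
            have hcop2 : Nat.Coprime q 2 := by
              rw [Nat.coprime_comm, Nat.prime_two.coprime_iff_not_dvd]
              exact hqodd
            have h11 : q ∣ 3 * (2 * (a * n) + 1) - (2 * (b * n) + 3) :=
              Nat.dvd_sub (h10.mul_left 3) c3
            have h12 : 3 * (2 * (a * n) + 1) - (2 * (b * n) + 3) = (3 * a - b) * n * 2 := by
              rw [Nat.sub_mul, Nat.sub_mul]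
              have e1 : 3 * a * n = 3 * (a * n) := by ring
              rw [e1]
              omega
            rw [h12] at h11
            have h13 : q ∣ 3 * a - b := hcopn.dvd_of_dvd_mul_right (hcop2.dvd_of_dvd_mul_right h11)
            rw [if_pos h13]
            omega
    · rw [if_neg c3]
      by_cases hxy : a * n % q < b * n % q
      · rw [if_pos hxy] at h1
        split_ifs <;> omega
      · rw [if_neg hxy] at h1
        split_ifs <;> omega

theorem fact_card {p n K : ℕ} (hp : p.Prime) (hn : 0 < n) (hK : n < p ^ K) :
    n.factorization p = ∑ i ∈ Ico 1 K, (if p ^ i ∣ n then 1 else 0) := by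
  rw [Nat.factorization_eq_card_pow_dvd_of_lt hp hn hK, Finset.card_filter]

theorem amd {a b n : ℕ} (hb : 1 ≤ b) (hab : b < a) (hn : 1 ≤ n) :
    (2 * b * n + 1) * (2 * b * n + 3) * (2 * b * n).choose (b * n) ∣
      3 * (a - b) * (3 * a - b) * (2 * a * n).choose (a * n) * (a * n).choose (b * n) := by
  have hle : b * n ≤ a * n := Nat.mul_le_mul_right n hab.le
  have hlt : b * n < a * n := Nat.mul_lt_mul_of_pos_right hab (by omega)
  have e1 : 2 * b * n = 2 * (b * n) := by ring
  have e2 : 2 * a * n = 2 * (a * n) := by ring
  rw [e1, e2]
  -- factorial form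
  have f1 : (2 * (b * n)).choose (b * n) * (b * n)! * (b * n)! = (2 * (b * n))! := by
    have := Nat.choose_mul_factorial_mul_factorial (show b * n ≤ 2 * (b * n) by omega)
    rwa [show 2 * (b * n) - b * n = b * n by omega] at this
  have f2 : (2 * (a * n)).choose (a * n) * (a * n)! * (a * n)! = (2 * (a * n))! := by
    have := Nat.choose_mul_factorial_mul_factorial (show a * n ≤ 2 * (a * n) by omega)
    rwa [show 2 * (a * n) - a * n = a * n by omega] at this
  have f3 : (a * n).choose (b * n) * (b * n)! * (a * n - b * n)! = (a * n)! :=
    Nat.choose_mul_factorial_mul_factorial hle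
  have h3ab : 0 < 3 * a - b := by omega
  have hab' : 0 < 3 * (a - b) := by omega
  have key : (2 * (b * n) + 1) * (2 * (b * n) + 3) * (2 * (b * n))! * (a * n)! * (a * n - b * n)! ∣
      3 * (a - b) * (3 * a - b) * (2 * (a * n))! * (b * n)! := by
    rw [← Nat.factorization_prime_le_iff_dvd]
    · intro p hp
      set K := 2 * (a * n) + 2 * (b * n) + 3 * a + 10 with hK
      have hpK : K < p ^ K := Nat.lt_pow_self hp.one_lt
      have hlog : ∀ m, m ≤ K → log p m < K := fun m hm => by
        rcases Nat.eq_zero_or_pos m with rfl | hm0
        · rw [Nat.log_zero_right]; omega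
        · exact (Nat.log_lt_of_lt_pow hm0.ne' (by omega))
      have hsumle := Finset.sum_le_sum (s := Ico 1 K) (fun i hi =>
        term (i := i) (n := n) hp (Finset.mem_Ico.1 hi).1 hab)
      simp only [Finset.sum_add_distrib] at hsumle
      rw [← fact_card hp (by omega) (by omega), ← fact_card hp (by omega) (by omega),
        ← fact_card hp hab' (by omega), ← fact_card hp h3ab (by omega),
        ← Nat.factorization_factorial hp (hlog _ (by omega)),
        ← Nat.factorization_factorial hp (hlog _ (by omega)),
        ← Nat.factorization_factorial hp (hlog _ (by omega)),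
        ← Nat.factorization_factorial hp (hlog _ (by omega)),
        ← Nat.factorization_factorial hp (hlog _ (by omega))] at hsumle
      have n1 : (2 * (b * n) + 1) ≠ 0 := by omega
      have n2 : (2 * (b * n) + 3) ≠ 0 := by omega
      have m1 := Nat.factorial_ne_zero (2 * (b * n))
      have m2 := Nat.factorial_ne_zero (a * n)
      have m3 := Nat.factorial_ne_zero (a * n - b * n)
      have m4 := Nat.factorial_ne_zero (2 * (a * n))
      have m5 := Nat.factorial_ne_zero (b * n)
      rw [Nat.factorization_mul (by positivity) m3, Nat.factorization_mul (by positivity) m2,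
        Nat.factorization_mul (by positivity) m1, Nat.factorization_mul n1 n2,
        Nat.factorization_mul (mul_ne_zero (mul_ne_zero hab'.ne' h3ab.ne') m4) m5,
        Nat.factorization_mul (mul_ne_zero hab'.ne' h3ab.ne') m4,
        Nat.factorization_mul hab'.ne' h3ab.ne']
      simp only [Finsupp.add_apply]
      exact hsumle
    · have m1 := Nat.factorial_ne_zero (2 * (b * n))
      positivity
    · exact mul_ne_zero (mul_ne_zero (mul_ne_zero hab'.ne' h3ab.ne') (Nat.factorial_ne_zero _))
        (Nat.factorial_ne_zero _)
  -- cancel
  have hpos : 0 < (b * n)! * (b * n)! * (a * n)! * (a * n - b * n)! := by positivity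
  apply Nat.dvd_of_mul_dvd_mul_right hpos
  have g1 : (2 * (b * n) + 1) * (2 * (b * n) + 3) * (2 * (b * n)).choose (b * n) *
      ((b * n)! * (b * n)! * (a * n)! * (a * n - b * n)!) =
      (2 * (b * n) + 1) * (2 * (b * n) + 3) * (2 * (b * n))! * (a * n)! * (a * n - b * n)! := by
    rw [← f1]; ring
  have g2 : 3 * (a - b) * (3 * a - b) * (2 * (a * n)).choose (a * n) * (a * n).choose (b * n) *
      ((b * n)! * (b * n)! * (a * n)! * (a * n - b * n)!) =
      3 * (a - b) * (3 * a - b) * (2 * (a * n))! * (b * n)! := by
    rw [← f2, ← f3]; ring
  rw [g1, g2]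
  exact key

end Pool.Agent.N926.Div
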