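import Mathlib

/-! Integer `3 × 3` matrices with determinant one whose entrywise square has determinant one. -/

set_option autoImplicit false

namespace Pool.Agent.N926.Gordon

theorem exists_one : ∃ A : Matrix (Fin 3) (Fin 3) ℤ, (∀ i j, 2 ≤ |A i j|) ∧ A.det = 1 ∧
    (A.map fun x => x ^ 2).det = 1 := by
  refine ⟨!![2, 2, 3; 3, 5, 6; 4, 9, 10], ?_, by simp [Matrix.det_fin_three], ?_⟩
  · intro i j
    fin_cases i <;> fin_cases j <;> decide
  · simp [Matrix.det_fin_three]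

/-- the third row is found from a factorization -/
def X (k : ℤ) : ℤ := (2 * k ^ 2 + 4 * k + 1) * (2 * k + 3) + 1

def Y (k : ℤ) : ℤ := (2 * k ^ 2 + 4 * k + 1) * (2 * k + 1) +
  ((2 * k ^ 2 + 4 * k + 1) ^ 2 * (2 * k + 1) * (2 * k + 3) - (k + 1) ^ 2)

def x (k : ℤ) : ℤ := k * X k + (k + 1) * Y k

def y (k : ℤ) : ℤ := (k + 1) * X k + (k + 2) * Y k

def fam (k : ℤ) : Matrix (Fin 3) (Fin 3) ℤ :=
  !![k, k + 1, 2 * k + 1; k + 1, k + 2, 2 * k + 3; x k, y k, x k + y k - 1]

theorem fam_det (k : ℤ) : (fam k).det = 1 := by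
  simp only [fam, x, y, X, Y, Matrix.det_fin_three, Matrix.of_apply, Matrix.cons_val', Matrix.cons_val_zero,
    Matrix.cons_val_one, Matrix.cons_val]
  ring

theorem fam_det_sq (k : ℤ) : ((fam k).map fun x => x ^ 2).det = 1 := by
  simp only [fam, x, y, X, Y, Matrix.det_fin_three, Matrix.map_apply, Matrix.of_apply, Matrix.cons_val', Matrix.cons_val_zero,
    Matrix.cons_val_one, Matrix.cons_val]
  ring

theorem fam_large (k : ℤ) (hk : 2 ≤ k) : ∀ i j, 2 ≤ |fam k i j| := by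
  have h1 : 2 ≤ 2 * k ^ 2 + 4 * k + 1 := by nlinarith
  have hX : 1 ≤ X k := by unfold X; nlinarith
  have hY : 1 ≤ Y k := by
    unfold Y
    have h2 : (k + 1) ^ 2 ≤ (2 * k ^ 2 + 4 * k + 1) ^ 2 := by
      apply pow_le_pow_left₀ <;> nlinarith
    have h3 : (2 * k ^ 2 + 4 * k + 1) ^ 2 ≤ (2 * k ^ 2 + 4 * k + 1) ^ 2 * (2 * k + 1) * (2 * k + 3) := by
      have h4 : 1 ≤ (2 * k + 1) * (2 * k + 3) := by nlinarith
      have h5 : 0 ≤ (2 * k ^ 2 + 4 * k + 1) ^ 2 := by positivity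
      nlinarith
    nlinarith
  have hx : 2 ≤ x k := by unfold x; nlinarith
  have hy : 2 ≤ y k := by unfold y; nlinarith
  intro i j
  have hpos : 2 ≤ fam k i j := by
    fin_cases i <;> fin_cases j <;> simp [fam] <;> linarith
  exact hpos.trans (le_abs_self _)

theorem infinite : {A : Matrix (Fin 3) (Fin 3) ℤ | (∀ i j, 2 ≤ |A i j|) ∧ A.det = 1 ∧
    (A.map fun x => x ^ 2).det = 1}.Infinite := by
  apply Set.infinite_of_injective_forall_mem (f := fun k : ℕ => fam (k + 2))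
  · intro k l h
    have := congrFun (congrFun h 0) 0
    simp [fam] at this
    exact this
  · intro k
    exact ⟨fam_large _ (by omega), fam_det _, fam_det_sq _⟩

end Pool.Agent.N926.Gordon
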