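import Mathlib

/-! If a prime `p` divides `k` but not `l`, then `l n + 1` does not divide `C(kn+ln, kn)` for infinitely
many `n`: take `n = (p^N - 1)/(k + l)` with `φ(k+l) ∣ N`. -/

set_option autoImplicit false

namespace Pool.Agent.N926.Div

/-- a row `p ^ N - 1` of Pascal's triangle has no entry divisible by `p` -/
theorem not_dvd_choose_row {p : ℕ} (hp : p.Prime) (N j : ℕ) (hj : j ≤ p ^ N - 1) :
    ¬ p ∣ (p ^ N - 1).choose j := by
  have := Fact.mk hp
  have hpos : 0 < p ^ N := pow_pos hp.pos N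
  induction j with
  | zero =>
    rw [Nat.choose_zero_right]
    exact hp.one_lt.not_ge ∘ Nat.le_of_dvd one_pos
  | succ j ih =>
    intro h
    have h1 : p ∣ (p ^ N).choose (j + 1) := by
      have h2 : (j + 1) ≠ 0 := Nat.succ_ne_zero j
      have h3 : j + 1 ≠ p ^ N := by omega
      exact hp.dvd_choose_pow h2 h3
    have h2 : (p ^ N).choose (j + 1) = (p ^ N - 1).choose j + (p ^ N - 1).choose (j + 1) := by
      obtain ⟨m, hm⟩ : ∃ m, p ^ N = m + 1 := ⟨p ^ N - 1, by omega⟩
      rw [hm, Nat.choose_succ_succ]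
      rfl
    rw [h2] at h1
    exact ih (by omega) ((Nat.dvd_add_left h).1 h1)

theorem key {k l p : ℕ} (hk : 1 ≤ k) (hp : p.Prime) (hpk : p ∣ k) (hpl : ¬ p ∣ l) (M : ℕ) :
    ∃ n, M ≤ n ∧ 1 ≤ n ∧ ¬ (l * n + 1) ∣ (k * n + l * n).choose (k * n) := by
  have hcop : Nat.Coprime p (k + l) := by
    rw [hp.coprime_iff_not_dvd]
    intro h
    exact hpl ((Nat.dvd_add_right hpk).1 h)
  -- choose N
  set N := Nat.totient (k + l) * ((k + l) * (M + 2)) with hN
  have hkl : 0 < k + l := by omega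
  have h1 : p ^ N ≡ 1 [MOD (k + l)] := by
    rw [hN, pow_mul]
    have := (Nat.ModEq.pow_totient hcop).pow ((k + l) * (M + 2))
    rwa [one_pow] at this
  have hpN : N < p ^ N := Nat.lt_pow_self hp.one_lt
  have hdvd : (k + l) ∣ p ^ N - 1 := (Nat.modEq_iff_dvd' (by omega)).1 h1.symm
  obtain ⟨n, hn⟩ := hdvd
  have htot : 1 ≤ Nat.totient (k + l) := Nat.totient_pos.2 hkl
  have hNle : (k + l) * (M + 2) ≤ N := by
    rw [hN]
    exact Nat.le_mul_of_pos_left _ htot
  have hnM : M + 1 ≤ n := by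
    have h2 : (k + l) * (M + 2) ≤ (k + l) * n + 1 - 1 + 1 := by omega
    by_contra hcon
    have h3 : n ≤ M := by omega
    have h4 : (k + l) * n ≤ (k + l) * M := Nat.mul_le_mul_left _ h3
    have h5 : (k + l) * (M + 2) = (k + l) * M + 2 * (k + l) := by ring
    omega
  refine ⟨n, by omega, by omega, fun hd => ?_⟩
  have hsum : k * n + l * n = p ^ N - 1 := by rw [hn]; ring
  rw [hsum] at hd
  have hNpos : 1 ≤ N := by
    have : 1 ≤ (k + l) * (M + 2) := Nat.one_le_iff_ne_zero.2 (by positivity)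
    omega
  have hple : p ∣ l * n + 1 := by
    have h2 : p ∣ p ^ N := dvd_pow_self p (by omega)
    have h3 : p ^ N = k * n + (l * n + 1) := by omega
    rw [h3] at h2
    exact (Nat.dvd_add_right (hpk.mul_right n)).1 h2
  exact not_dvd_choose_row hp N (k * n) (by omega) (hple.trans hd)

end Pool.Agent.N926.Div
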